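import Pool.Agent.Lib.MP_c052b4_al.AS.Fin
import Pool.Agent.Lib.MP_c052b4_al.Mg.G013

/-!
# The Farrell-Jones conjecture in low degrees: products of trees and rank two representations

Let `G` be a torsionfree group. Suppose that every finitely generated subgroup `H` of `G` acts on
finitely many trees without inversions and has a representation `ρ` of rank two over a commutative
ring of positive characteristic such that only the identity lies in the kernel of `ρ` and fixes a
vertex in each of the trees. No coherence and no finiteness condition is imposed on the stabilizers,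
and the number of trees is arbitrary. Then `G` satisfies the Farrell-Jones conjecture in degrees
`≤ 1`.
-/

set_option autoImplicit false

namespace Pool.Agent.Results.MP_c052b4_al.TreeProducts

open Pool.Agent.Lib.MP_c052b4_al

universe u

/-- The left module `M` has a finite resolution by finitely generated projective modules. -/
inductive FinRes (R : Type u) [Ring R] : ∀ (M : Type u) [AddCommGroup M] [Module R M], Prop
  | proj (M : Type u) [AddCommGroup M] [Module R M] (h1 : Module.Finite R M)
      (h2 : Module.Projective R M) : FinRes R M
  | step (M P : Type u) [AddCommGroup M] [Module R M] [AddCommGroup P] [Module R P]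
      (f : P →ₗ[R] M) (h1 : Module.Finite R P) (h2 : Module.Projective R P)
      (h3 : Function.Surjective f) (h4 : FinRes R (LinearMap.ker f)) : FinRes R M

/-- A ring is (left) regular if it is left Noetherian and every finitely generated left module has a
finite resolution by finitely generated projective left modules. -/
def IsRegular (R : Type u) [Ring R] : Prop :=
  IsNoetherianRing R ∧ ∀ (M : Type u) [AddCommGroup M] [Module R M], Module.Finite R M → FinRes R M

/-- The map `K₀(R) → K₀(R[G])` induced by the inclusion of the coefficients. -/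
noncomputable def coeffMap (R : Type u) [Ring R] (G : Type u) [Group G] :
    KGrp R →+ KGrp (MonoidAlgebra R G) :=
  kMap (MonoidAlgebra.singleOneRingHom : R →+* MonoidAlgebra R G)

/-- What the assembly maps `A_n`, `n ≤ 0`, being isomorphisms means for a regular ring `R`:
`K₀(R) → K₀(R[G])` is bijective and `K_{-n}(R[G]) = 0` for all `n ≥ 1`. -/
def AssemblyNonpos (R : Type u) [Ring R] (G : Type u) [Group G] : Prop :=
  Function.Bijective (coeffMap R G) ∧
    ∀ n : ℕ, 0 < n → Subsingleton ((KMinus n).obj (MonoidAlgebra R G))

/-- The conjecture in degrees `≤ 1` for all regular rings `R`, up to a kernel of `A₁` contained in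
the image of `tors(G_ab) ⊗ K₀(R)`:
* `AssemblyOne`: the assembly map `A₁ : K₁(R) ⊕ (G_ab ⊗ K₀(R)) → K₁(R[G])` is surjective, its kernel
  is contained in the image of `tors(G_ab) ⊗ K₀(R)`, and it is bijective if `R` is commutative,
  nonzero and all finitely generated projective `R`-modules are stably free;
* `AssemblyNonpos`: `K₀(R) → K₀(R[G])` is bijective and `K_{-n}(R[G]) = 0` for all `n ≥ 1`.

If `G_ab` is torsionfree, this is the conjecture in all degrees `≤ 1`. -/
def LowDegreeFJ (G : Type u) [Group G] : Prop :=
  ∀ (R : Type u) [Ring R], IsRegular R → AssemblyOne R G ∧ AssemblyNonpos R G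

/-- `H` acts on finitely many trees without inversions and has a homomorphism `ρ` to `GL₂(A)` for
some commutative ring `A` of positive characteristic such that only the identity lies in the kernel
of `ρ` and fixes a vertex in each of the trees. -/
def TreesAndRankTwo (H : Type u) [Group H] : Prop :=
  ∃ (n : ℕ) (V : Fin n → Type u) (_ : ∀ i, MulAction H (V i))
    (A : Type u) (_ : CommRing A) (N : ℕ) (ρ : H →* GL (Fin 2) A),
    (∀ i, Nonempty (TreeAction H (V i))) ∧ 0 < N ∧ (N : A) = 0 ∧
      ∀ h : H, ρ h = 1 → (∀ i, ∃ x : V i, h • x = x) → h = 1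

theorem FinRes.exists_finProjRes {R : Type u} [Ring R] {M : Type u} [AddCommGroup M] [Module R M]
    (h : FinRes R M) : ∃ n : ℕ, FinProjRes R n M := by
  induction h with
  | proj M h1 h2 => exact ⟨0, h1, h2⟩
  | step M P f h1 h2 h3 _ ih =>
    obtain ⟨n, hn⟩ := ih
    exact ⟨n + 1, P, inferInstance, inferInstance, f, h1, h2, h3, hn⟩

theorem finRes_of_finProjRes {R : Type u} [Ring R] : ∀ (n : ℕ) (M : Type u) [AddCommGroup M]
    [Module R M], FinProjRes R n M → FinRes R M := by
  intro n
  induction n with
  | zero =>
    intro M _ _ h
    exact FinRes.proj M h.1 h.2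
  | succ n ih =>
    intro M _ _ h
    obtain ⟨P, _, _, f, h1, h2, h3, h4⟩ := h
    exact FinRes.step M P f h1 h2 h3 (ih _ h4)

theorem isRegular_iff {R : Type u} [Ring R] :
    IsRegular R ↔ Pool.Agent.Lib.MP_c052b4_al.IsRegularRing R := by
  constructor
  · rintro ⟨h1, h2⟩
    exact ⟨h1, fun M _ _ hM => (h2 M hM).exists_finProjRes⟩
  · rintro ⟨h1, h2⟩
    refine ⟨h1, fun M _ _ hM => ?_⟩
    obtain ⟨n, hn⟩ := h2 M hM
    exact finRes_of_finProjRes n M hn

theorem lowDegreeFJ_of_hk {G : Type u} [Group G] (h : HK.{u} G) : LowDegreeFJ G := by
  intro R _ hR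
  have h1 := h.lowDegree R (isRegular_iff.1 hR)
  exact ⟨assemblyOne_of_imA h1.1, h1.2⟩

/-- **Theorem.** Let `G` be a torsionfree group such that every finitely generated subgroup `H` of
`G` acts on finitely many trees without inversions and has a homomorphism `ρ : H → GL₂(A)`, where `A`
is a commutative ring of positive characteristic, such that only the identity lies in the kernel of
`ρ` and fixes a vertex in each of the trees.

Then `G` satisfies `LowDegreeFJ`: for all regular rings `R` the assembly map
`A₁ : K₁(R) ⊕ (G_ab ⊗ K₀(R)) → K₁(R[G])` is surjective with kernel contained in the image of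
`tors(G_ab) ⊗ K₀(R)` (and bijective if `R` is commutative, nonzero and its finitely generated
projective modules are stably free), `K₀(R) → K₀(R[G])` is bijective and `K_{-n}(R[G]) = 0` for
`n ≥ 1`. -/
theorem result (G : Type u) [Group G] (htf : ∀ g : G, IsOfFinOrder g → g = 1)
    (h : ∀ H : Subgroup G, H.FG → TreesAndRankTwo H) : LowDegreeFJ G := by
  refine lowDegreeFJ_of_hk (MT.hk_of_fg fun H hH => ?_)
  obtain ⟨n, V, _, A, _, N, ρ, hT, hN, hA, hfree⟩ := h H hH
  exact MT.hk_of_trees_rep ((Group.fg_iff_subgroup_fg H).2 hH)
    (fun g hg => Subtype.ext (htf g ((Submonoid.isOfFinOrder_coe (H := H.toSubmonoid)).2 hg)))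
    V hT A N hN hA ρ hfree

end Pool.Agent.Results.MP_c052b4_al.TreeProducts
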